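import Mathlib
import Pool.Agent.Results.MP_6e2fc3_nt.CMFormsAllWeights
import Pool.Agent.L0h74.H1.All
import Pool.Agent.L0h60.PW.LAWR
import Pool.Agent.L0h74.PA.All

/-!
# The parity conjecture at `p = 2` for CM forms of all weights: all twists of `X_0(49)`

Let `E_M` be the quadratic twist by `M` of `X_0(49)`, `ψ_M` its Hecke character over
`K = ℚ(√-7) = ℚ(w)`, `w² = w - 2`. For every odd `k > 0` and every totally real field
`F = ℚ(√d_1, …, √d_n)` the newform of `ψ_M^{2k-1}` has a base change to `F`, a Hilbert modular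
newform `g` of parallel weight `2k`; its Galois representation `V_g` at the prime `2` is the
restriction to `Gal(ℚ̄/F)` of the representation of `Gal(ℚ̄/ℚ)` induced from the character
`κ^k κ'^(1-k)` of `Gal(ℚ̄/K)`.

Here `M`, `d_1, …, d_n` are arbitrary squarefree positive integers prime to `7`; so `F` is an
arbitrary totally real multiquadratic field in which `7` is unramified. The pair of `M` and
`d_1, …, d_n` is good if all the numbers `M ∏_{i ∈ T} d_i` are, up to squares, squarefree numbers `D`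
prime to `7` such that `E_D(ℚ)` is finite and `Ш(E_D/ℚ)` has no element of order two: a condition on
the weight `2` and the field `ℚ` only.

* If the pair is good then `H¹_f(F, V_g) = 0` for the forms `g` of all weights `2k`, `k` odd, and the
  order of `L(g, s)` at the centre is even.
* For all `M` and independent `d_1, …, d_n`, the pair `M D`, `d_1, …, d_n` is good for exactly the
  proportion `c ^ (2 ^ n) / 2` of all squarefree `D` prime to `7`, and of those in every residue
  class `r mod q`; `c = ∏ (1 - 2^{-2i-1}) = 0.419…`.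
* If the pair is good, then `d_1, …, d_n, D` are independent and the pair `M`, `d_1, …, d_n, D` is
  good for exactly the proportion `c ^ (2 ^ n) / 2` of the `D`.
* For `F = ℚ` (`n = 0`): `H¹_f(ℚ, V_g) = 0` for the newforms of all weights `2k`, `k` odd, for all `M`
  such that `E_M(ℚ)` is finite and `Ш(E_M/ℚ)` has no element of order two. These are exactly the
  proportion `c / 2` of the squarefree numbers prime to `7`, in every residue class.

The analytic side: by the Artin formalism the L-function of `g` is the product over `T` of the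
`L(ψ_D^{2k-1}, s)`, `D` the squarefree part of `M ∏_{i ∈ T} d_i`. For all squarefree `M`, `d_i` prime to
`7` and all odd `k` these are entire functions (given by the explicit Hecke series) and the order of
their product at the centre `s = k` is an even natural number. So for the good pairs both sides of the
parity conjecture are even: it is true for `p = 2` and for the forms `g` of all weights `2k`, `k` odd.
-/

set_option autoImplicit false

namespace Pool.Agent.Results.MP_d4aa36_nt.AllTwistsAllWeights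

open Pool.Agent.Results.MP_787500_nt.AllWeightsMultiquadraticX49 hiding Adm Good InClass prop AtLeast
open Pool.Agent.Results.MP_6e2fc3_nt.CMFormsAllWeights (AllForms)
open WeierstrassCurve Filter Topology
open scoped Classical

/-! ### The L-functions -/

/-- The primitive quadratic character of `ℚ(√D)`, `D` squarefree, at `n ≥ 1`. -/
def chiD (D : ℤ) (n : ℕ) : ℤ :=
  if D % 4 = 1 then jacobiSym n D.natAbs else if n % 2 = 0 then 0 else jacobiSym D n

/-- The norm of `x + y ω`, `ω = (1 + √-7) / 2`. -/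
def nn (v : ℤ × ℤ) : ℕ := (v.1 ^ 2 + v.1 * v.2 + 2 * v.2 ^ 2).natAbs

/-- The term of the Hecke L-series of `ψ_D^{2k-1}` for the element `x + y ω`: the value of `ψ_D` at
the ideal `(x + y ω)` is `((x + 4 y) / 7) χ_D(N(x + y ω)) (x + y ω)`. -/
noncomputable def term (D : ℤ) (k : ℕ) (s : ℂ) (v : ℤ × ℤ) : ℂ :=
  (jacobiSym (v.1 + 4 * v.2) 7 : ℂ) * (chiD D (nn v) : ℂ) *
    ((v.1 : ℂ) + (v.2 : ℂ) * ((1 + Complex.I * (Real.sqrt 7 : ℂ)) / 2)) ^ (2 * k - 1) *
    (nn v : ℂ) ^ (-s)

/-- `L` is the Hecke L-function `L(ψ_D^{2k-1}, s)`: an entire function, and for `Re s > k + 1/2` twice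
its value is the sum of the series over the elements `x + y ω` (every ideal has two generators). The
centre is `s = k`. -/
def IsHecke (D : ℤ) (k : ℕ) (L : ℂ → ℂ) : Prop :=
  Differentiable ℂ L ∧ ∀ s : ℂ, (k : ℝ) + 1 / 2 < s.re → HasSum (term D k s) (2 * L s)

/-! ### The condition -/

/-- The squarefree numbers `D ≥ 1` prime to `7`. -/
def Sqf (D : ℕ) : Prop := Squarefree D ∧ ¬ 7 ∣ D

/-- Those congruent to `r` modulo `q`. -/
def Class (q r D : ℕ) : Prop := Sqf D ∧ D % q = r % q

/-- The quadratic twist by `D` of `X_0(49)` over `ℚ`, with integral coefficients: the curve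
`y² + x y = x³ - ((3 D + 1) / 4) x² - 2 D² x - D³` for `D ≡ 1 mod 4` and
`y² = x³ - 35 D² x - 98 D³` otherwise. -/
def twist (D : ℕ) : WeierstrassCurve ℚ :=
  if D % 4 = 1 then E D
  else { a₁ := 0, a₂ := 0, a₃ := 0, a₄ := -35 * (D : ℚ) ^ 2, a₆ := -98 * (D : ℚ) ^ 3 }

/-- The group of the rational points of the twist by `D` is finite and its Tate–Shafarevich group
over `ℚ` has no element of order two. -/
def TrivialTwo (D : ℕ) : Prop :=
  Finite (twist D).toAffine.Point ∧
    ∀ x : Pool.Agent.TH841.NF.D.Sha (twist D), 2 • x = 0 → x = 0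

/-- The numbers `M ∏_{i ∈ T} d_i` are, up to squares, squarefree numbers `D_T` prime to `7`, and for
all odd `k > 0` the product of the L-functions `L(ψ_{D_T}^{2k-1}, s)` over all `T`, which is the
L-function of the form of weight `2k` over `F = ℚ(√d_1, …, √d_n)`, has even order at the centre. -/
def EvenOrder (M : ℕ) {n : ℕ} (d : Fin n → ℕ) : Prop := ∀ k : ℕ, Odd k →
  ∃ L : Finset (Fin n) → ℂ → ℂ,
    (∀ T, ∃ D j : ℕ, j ≠ 0 ∧ Sqf D ∧ M * ∏ i ∈ T, d i = D * j ^ 2 ∧ IsHecke (D : ℤ) k (L T)) ∧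
    ∃ r : ℕ, analyticOrderAt (fun s => ∏ T : Finset (Fin n), L T s) (k : ℂ) = ((2 * r : ℕ) : ℕ∞)

/-- The good pairs: all the numbers `M ∏_{i ∈ T} d_i` are, up to nonzero squares, squarefree numbers
`D` prime to `7` with `TrivialTwo D`. -/
def GoodPair (M : ℕ) {n : ℕ} (d : Fin n → ℕ) : Prop := ∀ T : Finset (Fin n), ∃ D k : ℕ,
  k ≠ 0 ∧ Sqf D ∧ TrivialTwo D ∧ M * ∏ i ∈ T, d i = D * k ^ 2

/-- `M`, `d_1, …, d_n` are squarefree and prime to `7`, and `d_1, …, d_n` are independent modulo
squares. -/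
def In (M : ℕ) {n : ℕ} (d : Fin n → ℕ) : Prop := Sqf M ∧ (∀ i, Sqf (d i)) ∧ Ind d

/-- The proportion of the `D ≤ X` with `P D` among those of the class `C`. -/
noncomputable def proportion (C : ℕ → Prop) (P : ℕ → Prop) (X : ℕ) : ℝ :=
  (((Finset.Icc 1 X).filter fun D : ℕ => C D ∧ P D).card : ℝ) /
    (((Finset.Icc 1 X).filter fun D : ℕ => C D).card : ℝ)

/-- In every nonempty class modulo `q` exactly the proportion `y` of the numbers have the property
`P`. In particular (`q = 1`) this holds for all squarefree numbers prime to `7`. -/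
def Exactly (y : ℝ) (P : ℕ → Prop) : Prop := ∀ q r : ℕ, 0 < q → (∃ D, Class q r D) →
  Tendsto (proportion (Class q r) P) atTop (𝓝 y)

/-! ### The proof -/

section proof

open Pool.Agent.L0h74.PW (GoodA)
open Pool.Agent.L0h60.PW (t_LAWR t_EXTR)
open Pool.Agent.L0h74.PA (par)
open Pool.Agent.L0h1.EV (TT TX)

lemma twist_eq (D : ℕ) : twist D = TX D := by
  unfold twist TX
  split_ifs with h
  · unfold E
    congr 1
    ring
  · rfl

lemma twist_iso (D : ℕ) : Iso (E D) (twist D) := by
  rw [twist_eq]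
  exact Pool.Agent.L0h74.H1.tx_iso D

lemma two_iff (D : ℕ) : TrivialTwo D ↔ TT D := by
  unfold TrivialTwo TT
  rw [twist_eq]
  refine and_congr Iff.rfl (forall_congr' fun x => ?_)
  rw [two_nsmul]

lemma good_iff {M n : ℕ} {d : Fin n → ℕ} : GoodPair M d ↔ GoodA M d := by
  unfold GoodPair GoodA
  refine forall_congr' fun T => exists_congr fun D => exists_congr fun k =>
    and_congr_right fun _ => ?_
  rw [two_iff]
  exact Iff.rfl

lemma forms_of {M n : ℕ} {d : Fin n → ℕ} (h : GoodPair M d) : AllForms M d :=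
  Pool.Agent.L0h74.H1.forms (good_iff.1 h)

lemma order_of {n M : ℕ} {d : Fin n → ℕ} (h : ∀ T : Finset (Fin n), ∃ D j : ℕ, j ≠ 0 ∧ Sqf D ∧
    M * ∏ i ∈ T, d i = D * j ^ 2) : EvenOrder M d := fun k hk =>
  Pool.Agent.L0h74.PA.even_pos par h k hk

lemma order_good {n M : ℕ} {d : Fin n → ℕ} (h : GoodPair M d) : EvenOrder M d := by
  refine order_of fun T => ?_
  obtain ⟨D, j, h1, h2, -, h3⟩ := h T
  exact ⟨D, j, h1, h2, h3⟩

lemma order_in {n M : ℕ} {d : Fin n → ℕ} (hM : Sqf M) (hd : ∀ i, Sqf (d i)) : EvenOrder M d := by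
  refine order_of fun T => ?_
  have hN : Pool.Agent.L0h60.PW.C7 (M * ∏ i ∈ T, d i) :=
    (Pool.Agent.L0h60.PW.c7_of hM).mul (Pool.Agent.L0h60.PW.C7.prod T d fun i _ =>
      Pool.Agent.L0h60.PW.c7_of (hd i))
  obtain ⟨h1, b, hb, h2⟩ := Pool.Agent.L0h60.PW.sr_spec hN
  exact ⟨_, b, hb, h1, h2⟩

lemma law_of {n M : ℕ} {d : Fin n → ℕ} (h : In M d) :
    Exactly (c ^ 2 ^ n / 2) fun D => GoodPair (M * D) d := by
  intro q r hq hne
  have h1 := t_LAWR q r hq hne n M d h.1 h.2.1 h.2.2
  have e : (fun D => GoodPair (M * D) d) = fun D => GoodA (M * D) d :=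
    funext fun D => propext good_iff
  rw [e]
  exact h1

lemma ext_of {n M : ℕ} {d : Fin n → ℕ} (h : In M d) (hG : GoodPair M d) :
    Exactly (c ^ 2 ^ n / 2) fun D => Ind (add d D) ∧ GoodPair M (add d D) := by
  intro q r hq hne
  have h1 := t_EXTR q r hq hne n M d h.1 h.2.1 h.2.2 (good_iff.1 hG)
  have e : (fun D => Ind (add d D) ∧ GoodPair M (add d D)) =
      fun D => Pool.Agent.L0h74.PW.IndG (Fin.snoc d D : Fin (n + 1) → ℕ) ∧
        GoodA M (Fin.snoc d D : Fin (n + 1) → ℕ) :=
    funext fun D => propext (and_congr Iff.rfl good_iff)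
  rw [e]
  exact h1

lemma single_iff {M : ℕ} (hM : Sqf M) {d : Fin 0 → ℕ} : GoodPair M d ↔ TrivialTwo M := by
  constructor
  · intro hG
    obtain ⟨D', k, hk, hD', hR, he⟩ := hG ∅
    rw [Finset.prod_empty, mul_one] at he
    have h1 : k * k ∣ M := ⟨D', by rw [he]; ring⟩
    have h2 := Nat.isUnit_iff.1 (hM.1 k h1)
    rw [h2, one_pow, mul_one] at he
    rwa [he]
  · intro hR T
    refine ⟨M, 1, one_ne_zero, hM, hR, ?_⟩
    have : T = ∅ := Finset.eq_empty_of_forall_notMem fun i => i.elim0
    rw [this, Finset.prod_empty]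
    ring

lemma rank_of : Exactly (c / 2) TrivialTwo := by
  have hone : Sqf 1 := ⟨squarefree_one, by norm_num⟩
  have h := law_of (n := 0) (M := 1) (d := fun i => i.elim0)
    ⟨hone, fun i => i.elim0, fun T hT => by
      obtain ⟨i, _⟩ := hT
      exact i.elim0⟩
  rw [pow_zero, pow_one] at h
  intro q r hq hne
  refine Tendsto.congr (fun X => ?_) (h q r hq hne)
  unfold proportion
  congr 2
  refine congrArg Finset.card (Finset.filter_congr fun D _ => and_congr_right fun hD => ?_)
  show GoodPair (1 * D) _ ↔ _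
  rw [one_mul]
  exact single_iff hD.1

end proof

/-- **The Bloch–Kato Selmer groups of the CM forms of all weights `2k`, `k` odd, for all twists of
`X_0(49)`, over the totally real multiquadratic fields of every degree.** -/
theorem result :
    (∀ D : ℕ, Iso (E D) (twist D)) ∧
    (∀ (n M : ℕ) (d : Fin n → ℕ), GoodPair M d → AllForms M d ∧ EvenOrder M d) ∧
    (∀ (n M : ℕ) (d : Fin n → ℕ), Sqf M → (∀ i, Sqf (d i)) → EvenOrder M d) ∧
    (∀ (M : ℕ) (d : Fin 0 → ℕ), Sqf M → (GoodPair M d ↔ TrivialTwo M)) ∧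
    (∀ (n M : ℕ) (d : Fin n → ℕ), In M d →
      Exactly (c ^ 2 ^ n / 2) fun D => GoodPair (M * D) d) ∧
    (∀ (n M : ℕ) (d : Fin n → ℕ), In M d → GoodPair M d →
      Exactly (c ^ 2 ^ n / 2) fun D => Ind (add d D) ∧ GoodPair M (add d D)) ∧
    Exactly (c / 2) TrivialTwo ∧
    0.4194 < c ∧ c < 0.4195 :=
  ⟨twist_iso, fun _ _ _ h => ⟨forms_of h, order_good h⟩, fun _ _ _ hM hd => order_in hM hd,
    fun _ _ hM => single_iff hM, fun _ _ _ h => law_of h,
    fun _ _ _ h hG => ext_of h hG, rank_of, Pool.Agent.Y948.CQ.t_C2.2.2.2.1,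
    Pool.Agent.Y948.CQ.t_C2.2.2.2.2⟩

end Pool.Agent.Results.MP_d4aa36_nt.AllTwistsAllWeights
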