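import Mathlib
import Pool.Agent.Results.MP_6e2fc3_nt.CMFormsAllWeights
import Pool.Agent.L0h74.H1.AllB
import Pool.Agent.L0h74.H1.Uni
import Pool.Agent.L0h74.PA.All

/-!
# The parity conjecture at `p = 2` for CM forms of the weights `2k`, `k` even: negative twists of
# `X_0(49)`

`E_{-M}` is the quadratic twist by `-M`, `M > 0`, of `X_0(49)`, `ψ_{-M}` its Hecke character over
`K = ℚ(√-7) = ℚ(w)`, `w² = w - 2`. For every even `k > 0` and every totally real field
`F = ℚ(√d_1, …, √d_n)` the newform of `ψ_{-M}^{2k-1}` has a base change to `F`, a Hilbert modular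
newform `g` of parallel weight `2k = 4, 8, 12, …`; its Galois representation `V_g` at the prime `2` is
the restriction to `Gal(ℚ̄/F)` of the representation of `Gal(ℚ̄/ℚ)` induced from the character
`κ^k κ'^(1-k)` of `Gal(ℚ̄/K)`, where `κ`, `κ'` are the characters of the `2`-adic Tate module of
`E_{-M}`.

The condition is on the *positive* twists, the weight `2` and the field `ℚ` only: the pair of `M` and
`d_1, …, d_n` is good if all the numbers `M ∏_{i ∈ T} d_i` are, up to squares, squarefree numbers `D`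
prime to `7` and not `5` modulo `8` such that `E_D(ℚ)` is finite and `Ш(E_D/ℚ)` has no element of
order two.

* If the pair is good then `H¹_f(F, V_g) = 0` for the forms `g` of all weights `2k`, `k` even, of the
  twist by `-M`. (`E_{-M}` itself, the case `k = 1`, has the root number `-1`.)
* In all residue classes of `D` in which none of the `D M ∏_{i ∈ T} d_i` is `5` modulo `8`, up to
  squares, the pair `M D`, `d_1, …, d_n` is good for exactly the proportion `c ^ (2 ^ n) / 2` of the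
  squarefree `D` prime to `7`; `c = ∏ (1 - 2^{-2i-1}) = 0.419…`. The same for the extensions of `F`.
* For **every** squarefree `M` prime to `7` and not `5` modulo `8` such that `E_M(ℚ)` is finite and
  `Ш(E_M/ℚ)` has no element of order two there is an infinite tower of fields
  `F_n = ℚ(√D_0, …, √D_{n-1})` of degree `2^n` with `H¹_f(F_n, V_g) = 0` for the forms `g` over `F_n`
  of all the weights `2k`, `k` even, of the twist by `-M`. One tower is sufficient for all the
  infinitely many such `M` if finitely many of the `D_i` (depending on `M`) are left out.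

The analytic side: by the Artin formalism the L-function of `g` is the product over `T` of the
`L(ψ_{-D}^{2k-1}, s)`, `D` the squarefree part of `M ∏_{i ∈ T} d_i`. For all squarefree `M`, `d_i` prime
to `7` and all even `k > 0` these are entire functions (given by the explicit Hecke series) and the
order of their product at the centre `s = k` is an even natural number. So for the good pairs both sides
of the parity conjecture are even: it is true for `p = 2` and for the forms `g` of all weights `2k`,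
`k` even.
-/

set_option autoImplicit false

namespace Pool.Agent.Results.MP_d4aa36_nt.NegativeTwistsEvenWeights

open Pool.Agent.Results.MP_787500_nt.AllWeightsMultiquadraticX49 hiding Adm Good InClass prop AtLeast
open Pool.Agent.Results.MP_6e2fc3_nt.CMFormsAllWeights (GQ Zero zero_of)
open WeierstrassCurve Filter Topology
open scoped Classical

/-! ### The forms -/

/-- The curve `y² + x y = x³ + ((3 M - 1) / 4) x² - 2 M² x + M³` over `ℚ`, the quadratic twist by
`-M` of `X_0(49) : y² + x y = x³ - x² - 2 x - 1`. -/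
def En (M : ℕ) : WeierstrassCurve ℚ :=
  { a₁ := 1, a₂ := (3 * (M : ℚ) - 1) / 4, a₃ := 0, a₄ := -2 * (M : ℚ) ^ 2, a₆ := (M : ℚ) ^ 3 }

/-- The element `√-7 M` of `ℤ[ω]`. -/
def twn (M : ℕ) : OK := ⟨-M, 2 * M⟩

/-- The curve `E_{-M}` over `K`. -/
noncomputable def EKn (w : QBar) (M : ℕ) : WeierstrassCurve (K w) := (En M).map (algebraMap ℚ (K w))

/-- The curve `E_{-M}` is over `K` isomorphic to the elliptic curve `ED w (twn M)`, the absolute
Galois group of `K` acts on its `2`-adic Tate module by `κ`, `κ'`, and for `F = ℚ(√d_1, …, √d_n)` and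
all even `k > 0` the group `H¹_f(F, V)` is zero for the representation `V` of the form of weight `2k`,
that is, the one induced from `κ^k κ'^(1-k)`. -/
def EvenForms (M : ℕ) {n : ℕ} (d : Fin n → ℕ) : Prop := ∀ w : QBar, w ^ 2 = w - 2 →
  Iso (EKn w M) (ED w (twn M)) ∧ (ED w (twn M)).IsElliptic ∧
  ∃ κ κ' : Chr w, TateModule (twn M) κ κ' ∧
    ∀ s : Fin n → QBar, (∀ i, s i ^ 2 = (d i : QBar)) → ∀ c₀ : GQ, c₀ w = 1 - w →
      ∀ k : ℤ, 0 < k → Even k → Zero s (chi κ κ' k) c₀

/-! ### The L-functions -/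

/-- The primitive quadratic character of `ℚ(√D)`, `D` squarefree, at `n ≥ 1`. -/
def chiD (D : ℤ) (n : ℕ) : ℤ :=
  if D % 4 = 1 then jacobiSym n D.natAbs else if n % 2 = 0 then 0 else jacobiSym D n

/-- The norm of `x + y ω`, `ω = (1 + √-7) / 2`. -/
def nn (v : ℤ × ℤ) : ℕ := (v.1 ^ 2 + v.1 * v.2 + 2 * v.2 ^ 2).natAbs

/-- The term of the Hecke L-series of `ψ_D^{2k-1}` for the element `x + y ω`: the value of `ψ_D` at
the ideal `(x + y ω)` is `((x + 4 y) / 7) χ_D(N(x + y ω)) (x + y ω)`. -/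
noncomputable def term (D : ℤ) (k : ℕ) (s : ℂ) (v : ℤ × ℤ) : ℂ :=
  (jacobiSym (v.1 + 4 * v.2) 7 : ℂ) * (chiD D (nn v) : ℂ) *
    ((v.1 : ℂ) + (v.2 : ℂ) * ((1 + Complex.I * (Real.sqrt 7 : ℂ)) / 2)) ^ (2 * k - 1) *
    (nn v : ℂ) ^ (-s)

/-- `L` is the Hecke L-function `L(ψ_D^{2k-1}, s)`: an entire function, and for `Re s > k + 1/2` twice
its value is the sum of the series over the elements `x + y ω` (every ideal has two generators). The
centre is `s = k`. -/
def IsHecke (D : ℤ) (k : ℕ) (L : ℂ → ℂ) : Prop :=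
  Differentiable ℂ L ∧ ∀ s : ℂ, (k : ℝ) + 1 / 2 < s.re → HasSum (term D k s) (2 * L s)

/-! ### The condition -/

/-- The squarefree numbers `D ≥ 1` prime to `7`. -/
def Sqf (D : ℕ) : Prop := Squarefree D ∧ ¬ 7 ∣ D

/-- Those congruent to `r` modulo `q`. -/
def Class (q r D : ℕ) : Prop := Sqf D ∧ D % q = r % q

/-- The quadratic twist by `D` of `X_0(49)` over `ℚ`, with integral coefficients: the curve
`y² + x y = x³ - ((3 D + 1) / 4) x² - 2 D² x - D³` for `D ≡ 1 mod 4` and
`y² = x³ - 35 D² x - 98 D³` otherwise. -/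
def twist (D : ℕ) : WeierstrassCurve ℚ :=
  if D % 4 = 1 then E D
  else { a₁ := 0, a₂ := 0, a₃ := 0, a₄ := -35 * (D : ℚ) ^ 2, a₆ := -98 * (D : ℚ) ^ 3 }

/-- The group of the rational points of the twist by `D` is finite and its Tate–Shafarevich group
over `ℚ` has no element of order two. -/
def TrivialTwo (D : ℕ) : Prop :=
  Finite (twist D).toAffine.Point ∧
    ∀ x : Pool.Agent.TH841.NF.D.Sha (twist D), 2 • x = 0 → x = 0

/-- The numbers `M ∏_{i ∈ T} d_i` are, up to squares, squarefree numbers `D_T` prime to `7`, and for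
all even `k > 0` the product of the L-functions `L(ψ_{-D_T}^{2k-1}, s)` over all `T`, which is the
L-function of the form of weight `2k` over `F = ℚ(√d_1, …, √d_n)`, has even order at the centre. -/
def EvenOrder (M : ℕ) {n : ℕ} (d : Fin n → ℕ) : Prop := ∀ k : ℕ, 0 < k → Even k →
  ∃ L : Finset (Fin n) → ℂ → ℂ,
    (∀ T, ∃ D j : ℕ, j ≠ 0 ∧ Sqf D ∧ M * ∏ i ∈ T, d i = D * j ^ 2 ∧ IsHecke (-(D : ℤ)) k (L T)) ∧
    ∃ r : ℕ, analyticOrderAt (fun s => ∏ T : Finset (Fin n), L T s) (k : ℂ) = ((2 * r : ℕ) : ℕ∞)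

/-- The good pairs: all the numbers `M ∏_{i ∈ T} d_i` are, up to nonzero squares, squarefree numbers
`D` prime to `7`, not `5` modulo `8`, with `TrivialTwo D`. -/
def GoodPair (M : ℕ) {n : ℕ} (d : Fin n → ℕ) : Prop := ∀ T : Finset (Fin n), ∃ D k : ℕ,
  k ≠ 0 ∧ Sqf D ∧ D % 8 ≠ 5 ∧ TrivialTwo D ∧ M * ∏ i ∈ T, d i = D * k ^ 2

/-- None of the numbers `M ∏_{i ∈ T} d_i` is, up to squares, a number `5` modulo `8`. -/
def NoFive (M : ℕ) {n : ℕ} (d : Fin n → ℕ) : Prop := ∀ (T : Finset (Fin n)) (D k : ℕ),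
  Sqf D → M * ∏ i ∈ T, d i = D * k ^ 2 → D % 8 ≠ 5

/-- The numbers congruent to `r` modulo `q`, a multiple of `8`, are such that none of the numbers
`D M ∏_{i ∈ T} d_i` is, up to squares, `5` modulo `8`; `M` and the `d_i` are odd. -/
def OddCase (q r M : ℕ) {n : ℕ} (d : Fin n → ℕ) : Prop := 8 ∣ q ∧ M % 2 = 1 ∧ (∀ i, d i % 2 = 1) ∧
  ∀ T : Finset (Fin n), (r * (M * ∏ i ∈ T, d i)) % 8 ≠ 5

/-- `M`, `d_1, …, d_n` are squarefree and prime to `7`, and `d_1, …, d_n` are independent modulo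
squares. -/
def In (M : ℕ) {n : ℕ} (d : Fin n → ℕ) : Prop := Sqf M ∧ (∀ i, Sqf (d i)) ∧ Ind d

/-- The proportion of the `D ≤ X` with `P D` among those of the class `C`. -/
noncomputable def proportion (C : ℕ → Prop) (P : ℕ → Prop) (X : ℕ) : ℝ :=
  (((Finset.Icc 1 X).filter fun D : ℕ => C D ∧ P D).card : ℝ) /
    (((Finset.Icc 1 X).filter fun D : ℕ => C D).card : ℝ)

/-- In every nonempty class modulo `q` all of whose numbers `D` have the property `S`, exactly the
proportion `y` of the numbers have the property `P`. -/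
def Exactly (y : ℝ) (S P : ℕ → Prop) : Prop := ∀ q r : ℕ, 0 < q → (∃ D, Class q r D) →
  (∀ D, Class q r D → S D) → Tendsto (proportion (Class q r) P) atTop (𝓝 y)

/-- The first index for the number `M`: it is `0` for the members of the finite set `A`. -/
def start (A : Finset ℕ) (M : ℕ) : ℕ := if M ∈ A then 0 else M

/-- The numbers `D_j, …, D_{j+n-1}`. -/
def part (D : ℕ → ℕ) (j n : ℕ) : Fin n → ℕ := fun i => D (j + i)

/-- In every nonempty class modulo `q` of numbers which are `1` modulo `8` and for every finite set `A`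
there is an infinite sequence `D_0, D_1, …` such that for all `n` no product of some of
`D_0, …, D_{n-1}` is a square and `H¹_f(F, V) = 0` for all squarefree `M` prime to `7`, not `5` modulo
`8`, with `TrivialTwo M`, the fields `F = ℚ(√D_j, …, √D_{j+n-1})`, where `j = 0` for `M ∈ A` and
`j = M` for the other ones, and the representations `V` of the forms of all weights `2k`, `k` even, of
the twist by `-M`. -/
def OneTower : Prop := ∀ q r : ℕ, 0 < q → 8 ∣ q → r % 8 = 1 → (∃ D, Class q r D) →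
  ∀ A : Finset ℕ, ∃ D : ℕ → ℕ, (∀ i, Class q r (D i)) ∧ (∀ n, Ind (part D 0 n)) ∧
    ∀ M : ℕ, Sqf M → M % 8 ≠ 5 → TrivialTwo M → ∀ n, EvenForms M (part D (start A M) n) ∧
      EvenOrder M (part D (start A M) n)

/-- In every nonempty class modulo `q` of numbers which are `1` modulo `8` there is an infinite
sequence `D_0, D_1, …` such that for all `n` the field `F_n = ℚ(√D_0, …, √D_{n-1})` has degree `2 ^ n`
(no product of some of the `D_i` is a square), and `H¹_f(F_n, V) = 0` for the representations `V` of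
the forms of all weights `2k`, `k` even, of the twist by `-M`. -/
def InfiniteTower (M : ℕ) : Prop := ∀ q r : ℕ, 0 < q → 8 ∣ q → r % 8 = 1 → (∃ D, Class q r D) →
  ∃ D : ℕ → ℕ, (∀ i, Class q r (D i)) ∧ ∀ n : ℕ, Ind (part D 0 n) ∧ EvenForms M (part D 0 n) ∧
    EvenOrder M (part D 0 n)

/-! ### The proof -/

section proof

open Pool.Agent.R384 (WD ca cb em)
open Pool.Agent.L0h74.H1 (VanE vanish_mqE van_ME hb)
open Pool.Agent.L0h74.PW (GoodA)
open Pool.Agent.L0h60.PW (t_LAWR t_EXTR)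
open Pool.Agent.L0h74.PA (par)
open Pool.Agent.L0h1.EV (TT TX)

variable {w : QBar} (hw : w ^ 2 = w - 2)

lemma twist_eq (D : ℕ) : twist D = TX D := by
  unfold twist TX
  split_ifs with h
  · unfold E
    congr 1
    ring
  · rfl

/-- the curve is isomorphic to the curve `E D` of the earlier results -/
lemma twist_iso (D : ℕ) : Iso (E D) (twist D) := by
  unfold twist
  split_ifs with h
  · exact ⟨1, one_smul _ _⟩
  · refine ⟨⟨Units.mk0 (1 / 2 : ℚ) (by norm_num), (D : ℚ) / 4, -(1 / 2), -(D : ℚ) / 8⟩, ?_⟩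
    have hu : (((Units.mk0 (1 / 2 : ℚ) (by norm_num))⁻¹ : ℚˣ) : ℚ) = 2 := by
      simp
    unfold E
    ext
    · simp only [variableChange_a₁, hu]
      norm_num
    · simp only [variableChange_a₂, hu]
      ring
    · simp only [variableChange_a₃, hu]
      ring
    · simp only [variableChange_a₄, hu]
      ring
    · simp only [variableChange_a₆, hu]
      ring

lemma two_iff (D : ℕ) : TrivialTwo D ↔ TT D := by
  unfold TrivialTwo TT
  rw [twist_eq]
  refine and_congr Iff.rfl (forall_congr' fun x => ?_)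
  rw [two_nsmul]

lemma good_iff' {M n : ℕ} {d : Fin n → ℕ} (h : NoFive M d) : GoodPair M d ↔ GoodA M d := by
  unfold GoodPair GoodA
  refine forall_congr' fun T => exists_congr fun D => exists_congr fun k =>
    and_congr_right fun _ => ?_
  rw [two_iff]
  constructor
  · rintro ⟨h1, -, h2, h3⟩
    exact ⟨h1, h2, h3⟩
  · rintro ⟨h1, h2, h3⟩
    exact ⟨h1, h T D k h1 h3, h2, h3⟩

lemma goodA_of {M n : ℕ} {d : Fin n → ℕ} (h : GoodPair M d) : GoodA M d := by
  intro T
  obtain ⟨D, k, h0, h1, -, h2, h3⟩ := h T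
  exact ⟨D, k, h0, h1, (two_iff D).1 h2, h3⟩

lemma twn_ne {D : ℕ} (hD : D ≠ 0) : twn D ≠ 0 := by
  intro h
  have h1 := congrArg QuadraticAlgebra.re h
  have h2 : -(D : ℤ) = 0 := h1
  exact hD (by exact_mod_cast neg_eq_zero.1 h2)

lemma twn_eq (D : ℕ) : twn D = Pool.Agent.R384.s7 * ((D : ℤ) : OK) := by
  ext
  · simp [twn, Pool.Agent.R384.s7]
  · simp [twn, Pool.Agent.R384.s7]

lemma twn_iso (hw : w ^ 2 = w - 2) (D : ℕ) : Iso (EKn w D) (ED w (twn D)) := by
  have hg := gen_sq.2 hw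
  have hemb : (emb (gen w) (twn D) : K w) = (-(D : K w)) - 2 * (-(D : K w)) * gen w := by
    unfold emb twn
    push_cast
    ring
  refine ⟨_, Eq.trans (congrArg _ ?_) ((gen_iso (d := -(D : K w)) hg).trans ?_)⟩
  · unfold EKn En WeierstrassCurve.map
    congr 1 <;> simp
    · ring
    · ring
  · unfold ED curve
    rw [hemb]

/-- the vanishing -/
lemma forms_of {M n : ℕ} {d : Fin n → ℕ} (hG : GoodPair M d) :
    EvenForms M d := by
  intro w hw
  have hM0 : M ≠ 0 := by
    obtain ⟨D, k, hk, hD, -, -, he⟩ := hG ∅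
    rw [Finset.prod_empty, mul_one] at he
    rw [he]
    exact mul_ne_zero hD.1.ne_zero (pow_ne_zero 2 hk)
  have hd0 : ∀ i, d i ≠ 0 := by
    intro i
    obtain ⟨D, k, hk, hD, -, -, he⟩ := hG {i}
    rw [Finset.prod_singleton] at he
    exact right_ne_zero_of_mul (he ▸ mul_ne_zero hD.1.ne_zero (pow_ne_zero 2 hk))
  have hD := twn_ne hM0
  refine ⟨twn_iso hw M, elliptic hD hw, ?_⟩
  have h : WD w (em hw (twn M)) := ⟨hw, Pool.Agent.R384.em_ne hw hD⟩
  obtain ⟨r, hr⟩ : ∃ r : QBar, r ^ 2 = em hw (twn M) :=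
    IsAlgClosed.exists_pow_nat_eq _ (by norm_num)
  obtain ⟨I, hI⟩ : ∃ I : QBar, I ^ 2 = -1 := IsAlgClosed.exists_pow_nat_eq _ (by norm_num)
  have fx : ∀ σ : Gal w, Pool.Agent.R384.Fx w (em hw (twn M))
      (Pool.Agent.R384.rh σ) := fun σ =>
    ⟨Pool.Agent.Y715.Gi.gk_fix σ, Pool.Agent.R384.gk_em hw σ (twn M)⟩
  obtain ⟨κ, κ', x, y, kd, hx, hy, ax, ay⟩ := Pool.Agent.R384.exists_kd hw hD h hr hI fx
  have td := Pool.Agent.R384.td h
  set T := tr (curve_eq hw (D := twn M)) with hT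
  have hor : ∀ {p : ℕ} [Fact p.Prime] (ι : QBar →ₐ[ℚ] PadicAlgCl p) (s : QBar) (z : OK),
      s ^ 2 = em hw z → ∀ σ : Gal w, σ s = s ∨ σ s = -s := fun ι s z hs σ =>
    Pool.Agent.R384.rt_or hw hs σ
  have hIr : (I * r) ^ 2 = em hw (-twn M) := by rw [mul_pow, hI, hr, map_neg]; ring
  refine ⟨κ, κ', ⟨⟨fun n => T.symm (y n), fun n => T.symm (x n), ⟨?_, ?_, ?_, ?_⟩,
    ⟨Units.continuous_val.comp kd.cont, fun σ => ?_⟩,
    ⟨Units.continuous_val.comp kd.cont', fun σ => ?_⟩⟩, ?_, ?_⟩, ?_⟩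
  · show T.symm (y 0) = 0 ∧ T.symm (x 0) = 0
    rw [hx.zero, hy.zero, map_zero]
    exact ⟨rfl, rfl⟩
  · intro n
    show T.symm (y (n + 1)) + T.symm (y (n + 1)) = T.symm (y n) ∧
      T.symm (x (n + 1)) + T.symm (x (n + 1)) = T.symm (x n)
    rw [← map_add, ← map_add, hx.dbl, hy.dbl]
    exact ⟨rfl, rfl⟩
  · intro n P hP
    have h1 : (2 ^ n : ℤ) • T P = 0 := by rw [← map_zsmul, hP, map_zero]
    obtain ⟨a, b, hab⟩ := Pool.Agent.R384.Tow.basis td hx hy h1
    refine ⟨b, a, ?_⟩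
    apply T.injective
    show T P = T (b • T.symm (y n) + a • T.symm (x n))
    rw [map_add, map_zsmul, map_zsmul, T.apply_symm_apply, T.apply_symm_apply, hab, add_comm]
  · intro n a b hab
    have h1 : T (a • T.symm (y n) + b • T.symm (x n)) = 0 := by
      show T ((fun n => a • T.symm (y n) + b • T.symm (x n)) n) = 0
      rw [show (fun n => a • T.symm (y n) + b • T.symm (x n)) n = 0 from hab, map_zero]
    rw [map_add, map_zsmul, map_zsmul, T.apply_symm_apply, T.apply_symm_apply, add_comm] at h1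
    exact (Pool.Agent.R384.Tow.uniq td hx hy h1).symm
  · intro n k hk
    show act σ (T.symm (y n)) = k • T.symm (y n)
    apply T.injective
    rw [hT, tr_act hw h fx σ, ← hT, T.apply_symm_apply, map_zsmul, T.apply_symm_apply]
    exact ay σ n k hk
  · intro n k hk
    show act σ (T.symm (x n)) = k • T.symm (x n)
    apply T.injective
    rw [hT, tr_act hw h fx σ, ← hT, T.apply_symm_apply, map_zsmul, T.apply_symm_apply]
    exact ax σ n k hk
  · rintro p _ ι hn σ ⟨τ, hτ, hin⟩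
    have h1 := kd.inert p ι τ σ hτ hin hn
    unfold zv
    rcases hor ι _ _ hIr σ with h2 | h2
    · rw [h1.1 h2, Units.val_one, one_pow]
    · rw [h1.2 h2, Units.val_neg, Units.val_one, neg_one_sq]
  · rintro p _ ι hn σ ⟨τ, hτ, hin⟩
    have h1 := kd.inert' p ι τ σ hτ hin hn
    unfold zv
    rcases hor ι _ _ hr σ with h2 | h2
    · rw [h1.1 h2, Units.val_one, one_pow]
    · rw [h1.2 h2, Units.val_neg, Units.val_one, neg_one_sq]
  · intro s hs c₀ hc₀ k _ hk
    have hom : em hw Pool.Agent.R384.om = w := by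
      rw [Pool.Agent.R384.em_apply]
      simp [Pool.Agent.R384.om]
    have hom' : em hw (1 - Pool.Agent.R384.om) = 1 - w := by
      rw [map_sub, map_one, hom]
    have hE : ∀ i, s i ^ 2 = em hw (((d i : ℤ) : Pool.Agent.R384.OO)) := by
      intro i
      rw [hs i, map_intCast]
      push_cast
      rfl
    have hE0 : ∀ i, (((d i : ℤ) : Pool.Agent.R384.OO)) ≠ 0 := by
      intro i h1
      have h2 := congrArg QuadraticAlgebra.re h1
      simp at h2
      exact hd0 i h2
    have hgood : ∀ T : Finset (Fin n), ∃ D' z : Pool.Agent.R384.OO, z ≠ 0 ∧ VanE D' ∧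
        twn M * ∏ i ∈ T, (((d i : ℤ) : Pool.Agent.R384.OO)) = D' * z ^ 2 := by
      intro T
      obtain ⟨D, k, hk0, hA', h5, hR, he⟩ := hG T
      refine ⟨Pool.Agent.R384.s7 * ((D : ℕ) : Pool.Agent.R384.OO),
        ((k : ℤ) : Pool.Agent.R384.OO), ?_, van_ME hb hA'.1 hA'.2 h5 ((two_iff D).1 hR), ?_⟩
      · intro h1
        have h2 := congrArg QuadraticAlgebra.re h1
        simp at h2
        exact hk0 h2
      · rw [twn_eq]
        have h1 : ((M : ℤ) : Pool.Agent.R384.OO) * ∏ i ∈ T, (((d i : ℤ) : Pool.Agent.R384.OO)) =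
            ((D : ℤ) : Pool.Agent.R384.OO) * ((k : ℤ) : Pool.Agent.R384.OO) ^ 2 := by
          have h2 : (M : ℤ) * ∏ i ∈ T, (d i : ℤ) = (D : ℤ) * (k : ℤ) ^ 2 := by exact_mod_cast he
          have h3 := congrArg (fun a : ℤ => (a : Pool.Agent.R384.OO)) h2
          simp only [Int.cast_mul, Int.cast_pow, Int.cast_prod] at h3
          exact h3
        have e1 : ((D : ℕ) : Pool.Agent.R384.OO) = ((D : ℤ) : Pool.Agent.R384.OO) := by
          push_cast
          rfl
        rw [e1]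
        linear_combination Pool.Agent.R384.s7 * h1
    refine zero_of hw hc₀ hs ?_
    rw [galL_eq]
    exact selmer_of hw (vanish_mqE hw hE kd hD hE0 hgood k (Or.inr ⟨hk, rfl, rfl⟩)) hom'

lemma order_of {n M : ℕ} {d : Fin n → ℕ} (h : ∀ T : Finset (Fin n), ∃ D j : ℕ, j ≠ 0 ∧ Sqf D ∧
    M * ∏ i ∈ T, d i = D * j ^ 2) : EvenOrder M d := fun k hk hk' =>
  Pool.Agent.L0h74.PA.even_neg par h k hk hk'

lemma order_good {n M : ℕ} {d : Fin n → ℕ} (h : GoodPair M d) : EvenOrder M d := by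
  refine order_of fun T => ?_
  obtain ⟨D, j, h1, h2, -, -, h3⟩ := h T
  exact ⟨D, j, h1, h2, h3⟩

lemma order_in {n M : ℕ} {d : Fin n → ℕ} (hM : Sqf M) (hd : ∀ i, Sqf (d i)) : EvenOrder M d := by
  refine order_of fun T => ?_
  have hN : Pool.Agent.L0h60.PW.C7 (M * ∏ i ∈ T, d i) :=
    (Pool.Agent.L0h60.PW.c7_of hM).mul (Pool.Agent.L0h60.PW.C7.prod T d fun i _ =>
      Pool.Agent.L0h60.PW.c7_of (hd i))
  obtain ⟨h1, b, hb, h2⟩ := Pool.Agent.L0h60.PW.sr_spec hN
  exact ⟨_, b, hb, h1, h2⟩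

/-! ### The proportions -/

lemma prop_congr {C P P' : ℕ → Prop} (h : ∀ D, C D → (P D ↔ P' D)) (X : ℕ) :
    proportion C P X = proportion C P' X := by
  unfold proportion
  congr 2
  exact congrArg Finset.card (Finset.filter_congr fun D _ => and_congr_right fun hD => h D hD)

lemma law_of {n M : ℕ} {d : Fin n → ℕ} (h : In M d) :
    Exactly (c ^ 2 ^ n / 2) (fun D => NoFive (M * D) d) fun D => GoodPair (M * D) d := by
  intro q r hq hne h5
  have h1 : Tendsto (proportion (Class q r) fun D => GoodA (M * D) d) atTop (𝓝 (c ^ 2 ^ n / 2)) :=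
    t_LAWR q r hq hne n M d h.1 h.2.1 h.2.2
  exact Tendsto.congr (fun X => prop_congr (fun D hD => (good_iff' (h5 D hD)).symm) X) h1

/-- the products with the last number -/
lemma good_snoc {M n : ℕ} {d : Fin n → ℕ} {D : ℕ} (hG : GoodPair M d) (h5 : NoFive (M * D) d)
    (h : GoodA M (Fin.snoc d D : Fin (n + 1) → ℕ)) : GoodPair M (add d D) := by
  refine (good_iff' fun T D' k hD' he => ?_).2 h
  obtain ⟨T', h3, h4⟩ := Pool.Agent.L0h60.PW.snoc_prod d D T
  by_cases hl : Fin.last n ∈ T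
  · have he' : M * ∏ i ∈ T, (Fin.snoc d D : Fin (n + 1) → ℕ) i = D' * k ^ 2 := he
    rw [(h4 hl).2, ← mul_assoc] at he'
    exact h5 T' D' k hD' he'
  · have he' : M * ∏ i ∈ T, (Fin.snoc d D : Fin (n + 1) → ℕ) i = D' * k ^ 2 := he
    rw [(h3 hl).2] at he'
    obtain ⟨D₁, k₁, hk₁, hD₁, h₁, -, he₁⟩ := hG T'
    have hk : k ≠ 0 := by
      rintro rfl
      rw [he₁] at he'
      have h6 : D₁ * k₁ ^ 2 ≠ 0 := mul_ne_zero hD₁.1.ne_zero (pow_ne_zero 2 hk₁)
      exact h6 (by rw [he']; ring)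
    have h6 : D' = D₁ := Pool.Agent.L0h60.PW.sqf_unique hD'.1 hD₁.1 hk hk₁ (by rw [← he', he₁])
    rwa [h6]

lemma ext_of {n M : ℕ} {d : Fin n → ℕ} (h : In M d) (hG : GoodPair M d) :
    Exactly (c ^ 2 ^ n / 2) (fun D => NoFive (M * D) d)
      fun D => Ind (add d D) ∧ GoodPair M (add d D) := by
  intro q r hq hne h5
  have h1 : Tendsto (proportion (Class q r) fun D =>
      Pool.Agent.L0h74.PW.IndG (Fin.snoc d D : Fin (n + 1) → ℕ) ∧
        GoodA M (Fin.snoc d D : Fin (n + 1) → ℕ)) atTop (𝓝 (c ^ 2 ^ n / 2)) :=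
    t_EXTR q r hq hne n M d h.1 h.2.1 h.2.2 (goodA_of hG)
  exact Tendsto.congr (fun X => prop_congr (fun D hD => and_congr Iff.rfl
    ⟨fun h => good_snoc hG (h5 D hD) h, fun h => goodA_of h⟩) X) h1

/-- the classes modulo `8` -/
lemma mod_aux {A P B k : ℕ} (h : A * P = B * k ^ 2) (hP : P % 2 = 1) (hB : B % 8 = 5) :
    (A * P) % 8 = 5 ∨ A % 4 = 0 := by
  have h1 : (A * P) % 8 = ((B % 8) * ((k % 8) ^ 2 % 8)) % 8 := by
    rw [h, Nat.mul_mod B, Nat.pow_mod k]
  have h2 : (A * P) % 4 = ((A % 4) * (P % 4)) % 4 := Nat.mul_mod _ _ _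
  have h3 : (A * P) % 8 % 4 = (A * P) % 4 := Nat.mod_mod_of_dvd _ (by norm_num)
  have h4 : A % 4 < 4 := Nat.mod_lt _ (by norm_num)
  have h5 : P % 4 = 1 ∨ P % 4 = 3 := by omega
  have h6 : k % 8 < 8 := Nat.mod_lt _ (by norm_num)
  rw [hB] at h1
  generalize (A * P) % 8 = x at *
  generalize (A * P) % 4 = y at *
  generalize A % 4 = a at *
  generalize P % 4 = p at *
  generalize k % 8 = b at *
  interval_cases b <;> interval_cases a <;> rcases h5 with rfl | rfl <;> omega

lemma noFive_of {q r n M : ℕ} {d : Fin n → ℕ} (h : OddCase q r M d) (D : ℕ) (hD : Class q r D) :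
    NoFive (M * D) d := by
  obtain ⟨h8, hM, hd, h⟩ := h
  intro T D' k hD' he h5
  have hP : (M * ∏ i ∈ T, d i) % 2 = 1 := by
    have h1 : (∏ i ∈ T, d i) % 2 = 1 := by
      rw [Finset.prod_nat_mod]
      simp [hd]
    rw [Nat.mul_mod, hM, h1]
  have hr : D % 8 = r % 8 := by
    have h1 := congrArg (· % 8) hD.2
    simpa only [Nat.mod_mod_of_dvd _ h8] using h1
  rcases mod_aux (A := D) (P := M * ∏ i ∈ T, d i) (by rw [← he]; ring) hP h5 with h6 | h6
  · apply h T
    rw [Nat.mul_mod, ← hr, ← Nat.mul_mod]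
    exact h6
  · have h7 : 2 * 2 ∣ D := Nat.dvd_of_mod_eq_zero h6
    have h9 := Nat.isUnit_iff.1 (hD.1.1 2 h7)
    omega

lemma noFive_one {n M : ℕ} {d : Fin n → ℕ} (hM : Sqf M) (h5 : M % 8 ≠ 5)
    (hd : ∀ i, d i % 8 = 1) : NoFive M d := by
  intro T D' k hD' he h5'
  have hP : (∏ i ∈ T, d i) % 8 = 1 := mod_prod hd T
  rcases mod_aux he (by omega) h5' with h6 | h6
  · rw [Nat.mul_mod, hP, mul_one, Nat.mod_mod] at h6
    exact h5 h6
  · have h7 : 2 * 2 ∣ M := Nat.dvd_of_mod_eq_zero h6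
    have h9 := Nat.isUnit_iff.1 (hM.1 2 h7)
    omega

lemma one_of : OneTower := by
  intro q r hq h8 hr hne A
  obtain ⟨D, hD, hI, h⟩ := Pool.Agent.L0h74.H1.universal hq hne A
  refine ⟨D, hD, fun n => ?_, fun M hM h5 ht n => ?_⟩
  · have e : part D 0 n = fun i : Fin n => D i := funext fun i => congrArg D (Nat.zero_add _)
    rw [e]
    exact hI n
  suffices hg : GoodPair M (part D (start A M) n) from ⟨forms_of hg, order_good hg⟩
  refine (good_iff' (noFive_one hM h5 fun i => ?_)).2 (h M hM ((two_iff M).1 ht) n)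
  · have h1 := congrArg (· % 8) (hD (start A M + i)).2
    simp only [Nat.mod_mod_of_dvd _ h8] at h1
    show D (start A M + i) % 8 = 1
    rw [h1, hr]

lemma tower_of {M : ℕ} (hM : Sqf M) (h5 : M % 8 ≠ 5) (ht : TrivialTwo M) : InfiniteTower M := by
  intro q r hq h8 hr hne
  obtain ⟨D, hD, hI, h1⟩ := one_of q r hq h8 hr hne {M}
  refine ⟨D, hD, fun n => ⟨hI n, ?_⟩⟩
  have h2 := h1 M hM h5 ht n
  rwa [start, if_pos (Finset.mem_singleton_self M)] at h2

end proof

/-- **The Bloch–Kato Selmer groups of the CM forms of the weights `2k`, `k` even, for the negative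
twists of `X_0(49)`, over the totally real multiquadratic fields of every degree.** -/
theorem result :
    (∀ D : ℕ, Iso (E D) (twist D)) ∧
    (∀ (n M : ℕ) (d : Fin n → ℕ), GoodPair M d → EvenForms M d ∧ EvenOrder M d) ∧
    (∀ (n M : ℕ) (d : Fin n → ℕ), Sqf M → (∀ i, Sqf (d i)) → EvenOrder M d) ∧
    (∀ (n M : ℕ) (d : Fin n → ℕ), In M d →
      Exactly (c ^ 2 ^ n / 2) (fun D => NoFive (M * D) d) fun D => GoodPair (M * D) d) ∧
    (∀ (n M : ℕ) (d : Fin n → ℕ), In M d → GoodPair M d →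
      Exactly (c ^ 2 ^ n / 2) (fun D => NoFive (M * D) d)
        fun D => Ind (add d D) ∧ GoodPair M (add d D)) ∧
    (∀ (q r n M : ℕ) (d : Fin n → ℕ), OddCase q r M d → ∀ D, Class q r D → NoFive (M * D) d) ∧
    OneTower ∧ (∀ M : ℕ, Sqf M → M % 8 ≠ 5 → TrivialTwo M → InfiniteTower M) ∧
    0.4194 < c ∧ c < 0.4195 :=
  ⟨twist_iso, fun _ _ _ h => ⟨forms_of h, order_good h⟩, fun _ _ _ hM hd => order_in hM hd,
    fun _ _ _ h => law_of h,
    fun _ _ _ h hG => ext_of h hG, fun _ _ _ _ _ h D hD => noFive_of h D hD,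
    one_of, fun _ hM h5 hR => tower_of hM h5 hR,
    Pool.Agent.Y948.CQ.t_C2.2.2.2.1, Pool.Agent.Y948.CQ.t_C2.2.2.2.2⟩

end Pool.Agent.Results.MP_d4aa36_nt.NegativeTwistsEvenWeights
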