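import Mathlib
import Pool.Agent.Results.MP_6e2fc3_nt.CMFormsAllWeights
import Pool.Agent.L0h74.H1.Uni
import Pool.Agent.L0h74.PA.All
import Pool.Agent.L0h74.H1.All

/-!
# The parity conjecture at `p = 2` for CM forms of all weights: one tower for all the good twists

Let `E_M` be the quadratic twist by `M` of `X_0(49)`, `ψ_M` its Hecke character over
`K = ℚ(√-7) = ℚ(w)`, `w² = w - 2`. For every odd `k > 0` and every totally real field
`F = ℚ(√d_1, …, √d_n)` the newform of `ψ_M^{2k-1}` has a base change to `F`, a Hilbert modular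
newform `g` of parallel weight `2k`; its Galois representation `V_g` at the prime `2` is the
restriction to `Gal(ℚ̄/F)` of the representation of `Gal(ℚ̄/ℚ)` induced from the character
`κ^k κ'^(1-k)` of `Gal(ℚ̄/K)`.

A number `M` is good if it is squarefree and prime to `7`, `E_M(ℚ)` is finite and `Ш(E_M/ℚ)` has no
element of order two. These are exactly the proportion `c / 2` of the squarefree numbers prime to `7`,
in every residue class; `c = ∏ (1 - 2^{-2i-1}) = 0.419…`.

* For every good `M` and every residue class there is an infinite sequence `D_0, D_1, …` of squarefree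
  numbers of the class such that for all `n` the field `F_n = ℚ(√D_0, …, √D_{n-1})` has degree `2^n`
  and `H¹_f(F_n, V_g) = 0` for the forms `g` over `F_n` of all the weights `2k`, `k` odd.
* One sequence is sufficient for all the infinitely many good `M` if finitely many terms (depending on
  `M`) are left out: `H¹_f(ℚ(√D_j, √D_{j+1}, …, √D_{j+n-1}), V_g) = 0` for all `n`, where `j = j(M)`. For
  a given finite set of good `M` nothing is left out.

For the class `1` modulo a multiple `q` of `8` all prime divisors of `q` split completely in all the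
fields.

The analytic side: by the Artin formalism the L-function of `g` is the product over `T` of the
`L(ψ_D^{2k-1}, s)`, `D` the squarefree part of `M ∏_{i ∈ T} d_i`. These are entire functions (given by
the explicit Hecke series) and the order of their product at the centre `s = k` is an even natural
number for all odd `k`. So both sides of the parity conjecture are even: it is true for `p = 2` and for
the forms `g` of all weights `2k`, `k` odd, over all the fields of the towers.
-/

set_option autoImplicit false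

namespace Pool.Agent.Results.MP_d4aa36_nt.OneTowerAllTwists

open Pool.Agent.Results.MP_787500_nt.AllWeightsMultiquadraticX49 hiding Adm Good InClass prop AtLeast
open Pool.Agent.Results.MP_6e2fc3_nt.CMFormsAllWeights (AllForms)
open WeierstrassCurve Filter Topology
open scoped Classical

/-! ### The L-functions -/

/-- The primitive quadratic character of `ℚ(√D)`, `D` squarefree, at `n ≥ 1`. -/
def chiD (D : ℤ) (n : ℕ) : ℤ :=
  if D % 4 = 1 then jacobiSym n D.natAbs else if n % 2 = 0 then 0 else jacobiSym D n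

/-- The norm of `x + y ω`, `ω = (1 + √-7) / 2`. -/
def nn (v : ℤ × ℤ) : ℕ := (v.1 ^ 2 + v.1 * v.2 + 2 * v.2 ^ 2).natAbs

/-- The term of the Hecke L-series of `ψ_D^{2k-1}` for the element `x + y ω`: the value of `ψ_D` at
the ideal `(x + y ω)` is `((x + 4 y) / 7) χ_D(N(x + y ω)) (x + y ω)`. -/
noncomputable def term (D : ℤ) (k : ℕ) (s : ℂ) (v : ℤ × ℤ) : ℂ :=
  (jacobiSym (v.1 + 4 * v.2) 7 : ℂ) * (chiD D (nn v) : ℂ) *
    ((v.1 : ℂ) + (v.2 : ℂ) * ((1 + Complex.I * (Real.sqrt 7 : ℂ)) / 2)) ^ (2 * k - 1) *
    (nn v : ℂ) ^ (-s)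

/-- `L` is the Hecke L-function `L(ψ_D^{2k-1}, s)`: an entire function, and for `Re s > k + 1/2` twice
its value is the sum of the series over the elements `x + y ω` (every ideal has two generators). The
centre is `s = k`. -/
def IsHecke (D : ℤ) (k : ℕ) (L : ℂ → ℂ) : Prop :=
  Differentiable ℂ L ∧ ∀ s : ℂ, (k : ℝ) + 1 / 2 < s.re → HasSum (term D k s) (2 * L s)

/-! ### The towers -/

/-- The squarefree numbers `D ≥ 1` prime to `7`. -/
def Sqf (D : ℕ) : Prop := Squarefree D ∧ ¬ 7 ∣ D

/-- Those congruent to `r` modulo `q`. -/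
def Class (q r D : ℕ) : Prop := Sqf D ∧ D % q = r % q

/-- The quadratic twist by `D` of `X_0(49)` over `ℚ`, with integral coefficients: the curve
`y² + x y = x³ - ((3 D + 1) / 4) x² - 2 D² x - D³` for `D ≡ 1 mod 4` and
`y² = x³ - 35 D² x - 98 D³` otherwise. -/
def twist (D : ℕ) : WeierstrassCurve ℚ :=
  if D % 4 = 1 then E D
  else { a₁ := 0, a₂ := 0, a₃ := 0, a₄ := -35 * (D : ℚ) ^ 2, a₆ := -98 * (D : ℚ) ^ 3 }

/-- The group of the rational points of the twist by `D` is finite and its Tate–Shafarevich group
over `ℚ` has no element of order two. -/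
def TrivialTwo (D : ℕ) : Prop :=
  Finite (twist D).toAffine.Point ∧
    ∀ x : Pool.Agent.TH841.NF.D.Sha (twist D), 2 • x = 0 → x = 0

/-- The proportion of the `D ≤ X` with `P D` among those of the class `C`. -/
noncomputable def proportion (C : ℕ → Prop) (P : ℕ → Prop) (X : ℕ) : ℝ :=
  (((Finset.Icc 1 X).filter fun D : ℕ => C D ∧ P D).card : ℝ) /
    (((Finset.Icc 1 X).filter fun D : ℕ => C D).card : ℝ)

/-- In every nonempty class modulo `q` exactly the proportion `y` of the numbers have the property
`P`. In particular (`q = 1`) this holds for all squarefree numbers prime to `7`. -/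
def Exactly (y : ℝ) (P : ℕ → Prop) : Prop := ∀ q r : ℕ, 0 < q → (∃ D, Class q r D) →
  Tendsto (proportion (Class q r) P) atTop (𝓝 y)

/-- The numbers `M ∏_{i ∈ T} d_i` are, up to squares, squarefree numbers `D_T` prime to `7`, and for
all odd `k > 0` the product of the L-functions `L(ψ_{D_T}^{2k-1}, s)` over all `T`, which is the
L-function of the form of weight `2k` over `F = ℚ(√d_1, …, √d_n)`, has even order at the centre. -/
def EvenOrder (M : ℕ) {n : ℕ} (d : Fin n → ℕ) : Prop := ∀ k : ℕ, Odd k →
  ∃ L : Finset (Fin n) → ℂ → ℂ,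
    (∀ T, ∃ D j : ℕ, j ≠ 0 ∧ Sqf D ∧ M * ∏ i ∈ T, d i = D * j ^ 2 ∧ IsHecke (D : ℤ) k (L T)) ∧
    ∃ r : ℕ, analyticOrderAt (fun s => ∏ T : Finset (Fin n), L T s) (k : ℂ) = ((2 * r : ℕ) : ℕ∞)

/-- The first index for the number `M`: it is `0` for the members of the finite set `A`. -/
def start (A : Finset ℕ) (M : ℕ) : ℕ := if M ∈ A then 0 else M

/-- The numbers `D_j, …, D_{j+n-1}`. -/
def part (D : ℕ → ℕ) (j n : ℕ) : Fin n → ℕ := fun i => D (j + i)

/-- In every nonempty class modulo `q` and for every finite set `A` there is an infinite sequence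
`D_0, D_1, …` such that for all `n` no product of some of `D_0, …, D_{n-1}` is a square and
`H¹_f(F, V) = 0` for all numbers `M` that are squarefree, prime to `7` and have `TrivialTwo M`, the
fields `F = ℚ(√D_j, …, √D_{j+n-1})`, where `j = 0` for `M ∈ A` and `j = M` for the other ones, and the
representations `V` of the forms of all weights `2k`, `k` odd. -/
def OneTower : Prop := ∀ q r : ℕ, 0 < q → (∃ D, Class q r D) → ∀ A : Finset ℕ,
  ∃ D : ℕ → ℕ, (∀ i, Class q r (D i)) ∧ (∀ n, Ind (part D 0 n)) ∧
    ∀ M : ℕ, Sqf M → TrivialTwo M → ∀ n, AllForms M (part D (start A M) n) ∧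
      EvenOrder M (part D (start A M) n)

/-- In every nonempty class modulo `q` there is an infinite sequence `D_0, D_1, …` such that for all
`n` the field `F_n = ℚ(√D_0, …, √D_{n-1})` has degree `2 ^ n` (no product of some of the `D_i` is a
square), and `H¹_f(F_n, V) = 0` for the representations `V` of the forms of all weights `2k`, `k`
odd. -/
def InfiniteTower (M : ℕ) : Prop := ∀ q r : ℕ, 0 < q → (∃ D, Class q r D) →
  ∃ D : ℕ → ℕ, (∀ i, Class q r (D i)) ∧ ∀ n : ℕ, Ind (part D 0 n) ∧ AllForms M (part D 0 n) ∧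
    EvenOrder M (part D 0 n)

/-! ### The proof -/

section proof

open Pool.Agent.L0h60.PW (t_LAWR)
open Pool.Agent.L0h74.PA (par)
open Pool.Agent.L0h1.EV (TT TX)

lemma twist_eq (D : ℕ) : twist D = TX D := by
  unfold twist TX
  split_ifs with h
  · unfold E
    congr 1
    ring
  · rfl

lemma twist_iso (D : ℕ) : Iso (E D) (twist D) := by
  rw [twist_eq]
  exact Pool.Agent.L0h74.H1.tx_iso D

lemma two_iff (D : ℕ) : TrivialTwo D ↔ TT D := by
  unfold TrivialTwo TT
  rw [twist_eq]
  refine and_congr Iff.rfl (forall_congr' fun x => ?_)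
  rw [two_nsmul]

lemma one_of : OneTower := by
  intro q r hq hne A
  obtain ⟨D, hD, hI, h⟩ := Pool.Agent.L0h74.H1.universal hq hne A
  refine ⟨D, hD, fun n => ?_, fun M hM ht n =>
    ⟨Pool.Agent.L0h74.H1.forms (h M hM ((two_iff M).1 ht) n), fun k hk =>
      Pool.Agent.L0h74.PA.even_pos par (fun T => ?_) k hk⟩⟩
  · have e : part D 0 n = fun i : Fin n => D i := funext fun i => congrArg D (Nat.zero_add _)
    rw [e]
    exact hI n
  · obtain ⟨D', j, h1, h2, -, h3⟩ := h M hM ((two_iff M).1 ht) n T
    exact ⟨D', j, h1, h2, h3⟩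

lemma tower_of {M : ℕ} (hM : Sqf M) (ht : TrivialTwo M) : InfiniteTower M := by
  intro q r hq hne
  obtain ⟨D, hD, hI, h1⟩ := one_of q r hq hne {M}
  refine ⟨D, hD, fun n => ⟨hI n, ?_⟩⟩
  have h2 := h1 M hM ht n
  rwa [start, if_pos (Finset.mem_singleton_self M)] at h2

lemma rank_of : Exactly (c / 2) TrivialTwo := by
  intro q r hq hne
  have h := t_LAWR q r hq hne 0 1 (fun i => i.elim0) ⟨squarefree_one, by norm_num⟩
    (fun i => i.elim0) fun T hT => by
      obtain ⟨i, _⟩ := hT
      exact i.elim0
  rw [pow_zero, pow_one] at h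
  refine Tendsto.congr (fun X => ?_) h
  unfold Pool.Agent.L0h74.PW.propR proportion
  congr 2
  refine congrArg Finset.card (Finset.filter_congr fun D _ => and_congr_right fun hD => ?_)
  show Pool.Agent.L0h74.PW.GoodA (1 * D) _ ↔ _
  rw [one_mul, two_iff]
  constructor
  · intro hG
    obtain ⟨D', k, hk, hD', hR, he⟩ := hG ∅
    rw [Finset.prod_empty, mul_one] at he
    have h1 : k * k ∣ D := ⟨D', by rw [he]; ring⟩
    have h2 := Nat.isUnit_iff.1 (hD.1.1 k h1)
    rw [h2, one_pow, mul_one] at he
    rwa [he]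
  · intro hR T
    refine ⟨D, 1, one_ne_zero, hD.1, hR, ?_⟩
    have : T = ∅ := Finset.eq_empty_of_forall_notMem fun i => i.elim0
    rw [this, Finset.prod_empty]
    ring

end proof

/-- **One tower for all the good twists.** -/
theorem result :
    (∀ D : ℕ, Iso (E D) (twist D)) ∧ OneTower ∧
    (∀ M : ℕ, Sqf M → TrivialTwo M → InfiniteTower M) ∧
    Exactly (c / 2) TrivialTwo ∧
    0.4194 < c ∧ c < 0.4195 :=
  ⟨twist_iso, one_of, fun _ hM ht => tower_of hM ht, rank_of,
    Pool.Agent.Y948.CQ.t_C2.2.2.2.1, Pool.Agent.Y948.CQ.t_C2.2.2.2.2⟩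

end Pool.Agent.Results.MP_d4aa36_nt.OneTowerAllTwists
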